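import Pool.Agent.Y150.KS.Defs

/-!
# Positivity of the canonical heights of points with dense orbits
-/

set_option autoImplicit false

namespace Pool.Agent.Y288.KS

open Pool.Agent.Y150.KS

theorem closed_fin (X : DynVar) (p : ℕ → X.V) (m : ℕ) : IsClosed {z | ∃ j < m, z = p j} := by
  have h : {z | ∃ j < m, z = p j} = ⋃ j ∈ Finset.range m, {p j} := by
    ext z
    simp
  rw [h]
  exact isClosed_biUnion_finset fun j _ => X.closed_point _

theorem closed_pts (X : DynVar) (D : Set X.V) (hD : IsClosed D) (p : ℕ → X.V) :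
    ∀ m : ℕ, D ∪ {z | ∃ j < m, z = p j} = Set.univ →
      D = Set.univ ∨ ∃ q : X.V, ({q} : Set X.V) = Set.univ := by
  intro m
  induction m with
  | zero =>
    intro h
    left
    rw [← h]
    ext z
    simp
  | succ m ih =>
    intro h
    rcases X.irred (D ∪ {z | ∃ j < m, z = p j}) {p m} (hD.union (closed_fin X p m))
      (X.closed_point _) (by
        refine Set.eq_univ_of_forall fun z => ?_
        have hz : z ∈ D ∪ {z | ∃ j < m + 1, z = p j} := by rw [h]; trivial
        rcases hz with hz | ⟨j, hj, hz⟩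
        · exact Or.inl (Or.inl hz)
        · rcases Nat.lt_succ_iff_lt_or_eq.1 hj with hj | hj
          · exact Or.inl (Or.inr ⟨j, hj, hz⟩)
          · rw [hj] at hz
            exact Or.inr hz) with h1 | h1
    · exact ih h1
    · exact Or.inr ⟨p m, h1⟩

theorem t_pos : S_pos := by
  intro X Γ r θ χ Z hE hΓ k hk hk2 f hf x hx i
  obtain ⟨A, hA⟩ := X.ample_ne
  have hpow : ∀ g ∈ Γ, ∀ (n : ℕ) (j : Fin r) (y : X.V),
      k j (X.act (g ^ n) y) = χ g j ^ n * k j y := by
    intro g hg n
    induction n with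
    | zero =>
      intro j y
      rw [pow_zero, pow_zero, X.act_one, one_mul]
    | succ n ih =>
      intro j y
      rw [pow_succ' g, X.act_mul, hk2 g hg, ih, pow_succ' (χ g j)]
      ring
  obtain ⟨hZc, hZne, hbig⟩ := hE.big
  obtain ⟨m, hm⟩ : ∃ m : ℕ, X.act (f ^ m) x ∉ Z := by
    by_contra hcon
    push Not at hcon
    exact hZne (hx Z hZc hcon)
  obtain ⟨y, hy⟩ : ∃ y, y = X.act (f ^ m) x := ⟨_, rfl⟩
  rw [← hy] at hm
  suffices h : 0 < k i y by
    rw [hy, hpow f hf] at h
    exact (mul_pos_iff_of_pos_left (pow_pos (hE.chi_pos f hf i) m)).1 h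
  by_contra hneg
  rw [not_lt] at hneg
  obtain ⟨g, hg, hc, hj⟩ := hΓ i
  have hgZ : ∀ n : ℕ, X.act (g ^ n) y ∉ Z := by
    intro n
    induction n with
    | zero =>
      rw [pow_zero, X.act_one]
      exact hm
    | succ n ih =>
      rw [pow_succ', X.act_mul]
      exact hE.inv g hg _ ih
  have hsum : ∀ s : Finset (Fin r), ∃ C : ℝ, ∀ z,
      X.ht (∑ j ∈ s, θ j) z ≤ ∑ j ∈ s, k j z + C := by
    intro s
    classical
    induction s using Finset.induction_on with
    | empty =>
      obtain ⟨C, hC⟩ := X.ht_smul 0 A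
      refine ⟨C, fun z => ?_⟩
      have h1 := hC z
      rw [zero_smul, zero_mul, sub_zero] at h1
      rw [Finset.sum_empty, Finset.sum_empty, zero_add]
      exact (le_abs_self _).trans h1
    | insert a s ha ih =>
      obtain ⟨C, hC⟩ := ih
      obtain ⟨C1, hC1⟩ := X.ht_add (θ a) (∑ j ∈ s, θ j)
      obtain ⟨C2, hC2⟩ := hk a
      refine ⟨C + C1 + C2, fun z => ?_⟩
      rw [Finset.sum_insert ha, Finset.sum_insert ha]
      have h1 := (abs_le.1 (hC1 z)).2
      have h2 := (abs_le.1 (hC2 z)).1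
      have h3 := hC z
      linarith
  obtain ⟨C2, hC2⟩ := hsum Finset.univ
  obtain ⟨C1, hC10, -, hC1⟩ := hbig A hA
  have hbd : ∀ n : ℕ, X.ht A (X.act (g ^ n) y) ≤ C1 * (∑ j, |k j y| + C2) + C1 := by
    intro n
    have h1 := hC1 _ (hgZ n)
    have h2 := hC2 (X.act (g ^ n) y)
    have h3 : ∑ j, k j (X.act (g ^ n) y) ≤ ∑ j, |k j y| := by
      refine Finset.sum_le_sum fun j _ => ?_
      rw [hpow g hg]
      by_cases hji : j = i
      · rw [hji]
        exact (mul_nonpos_of_nonneg_of_nonpos (pow_pos (hE.chi_pos g hg i) n).le hneg).trans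
          (abs_nonneg _)
      · have h4 : χ g j ^ n ≤ 1 := pow_le_one₀ (hE.chi_pos g hg j).le (hj j hji)
        calc χ g j ^ n * k j y ≤ χ g j ^ n * |k j y| :=
              mul_le_mul_of_nonneg_left (le_abs_self _) (pow_pos (hE.chi_pos g hg j) n).le
          _ ≤ 1 * |k j y| := mul_le_mul_of_nonneg_right h4 (abs_nonneg _)
          _ = |k j y| := one_mul _
    have h4 : X.ht (∑ j, θ j) (X.act (g ^ n) y) ≤ ∑ j, |k j y| + C2 := by linarith
    have h5 := mul_le_mul_of_nonneg_left h4 hC10
    linarith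
  have hfin := X.northcott A hA g y _ hbd
  obtain ⟨a, b, hab, heq⟩ : ∃ a b : ℕ, a < b ∧ X.act (g ^ a) y = X.act (g ^ b) y := by
    by_contra hcon
    push Not at hcon
    have hinj : Function.Injective (fun n : ℕ => X.act (g ^ n) y) := by
      intro a b h
      rcases lt_trichotomy a b with h1 | h1 | h1
      · exact absurd h (hcon a b h1)
      · exact h1
      · exact absurd h.symm (hcon b a h1)
    exact Set.infinite_range_of_injective hinj hfin
  have hcomm : Commute f g := hE.comm f hf g hg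
  have hall : ∀ z, X.act (g ^ a) z = X.act (g ^ b) z := by
    have hD := X.closed_eq (g ^ a) (g ^ b)
    have huniv : {z | X.act (g ^ a) z = X.act (g ^ b) z} ∪
        {z | ∃ j < m, z = X.act (f ^ j) x} = Set.univ := by
      refine hx _ (hD.union (closed_fin X (fun j => X.act (f ^ j) x) m)) fun n => ?_
      by_cases hn : n < m
      · exact Or.inr ⟨n, hn, rfl⟩
      · left
        change X.act (g ^ a) (X.act (f ^ n) x) = X.act (g ^ b) (X.act (f ^ n) x)
        have e : f ^ n = f ^ (n - m) * f ^ m := by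
          rw [← pow_add]
          congr 1
          omega
        rw [e, X.act_mul (f ^ (n - m)) (f ^ m), ← hy, ← X.act_mul (g ^ a), ← X.act_mul (g ^ b),
          ← (hcomm.pow_pow (n - m) a).eq, ← (hcomm.pow_pow (n - m) b).eq,
          X.act_mul _ (g ^ a), X.act_mul _ (g ^ b), heq]
    rcases closed_pts X _ hD (fun j => X.act (f ^ j) x) m huniv with h | ⟨q, hq⟩
    · intro z
      have h1 : z ∈ {z | X.act (g ^ a) z = X.act (g ^ b) z} := by rw [h]; trivial
      exact h1
    · intro z
      have h1 : X.act (g ^ a) z ∈ ({q} : Set X.V) := by rw [hq]; trivial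
      have h2 : X.act (g ^ b) z ∈ ({q} : Set X.V) := by rw [hq]; trivial
      exact (Set.mem_singleton_iff.1 h1).trans (Set.mem_singleton_iff.1 h2).symm
  have hgab := X.faithful _ _ hall
  have hpull : ∀ n : ℕ, X.pull (g ^ n) (θ i) = χ g i ^ n • θ i := by
    intro n
    induction n with
    | zero => rw [pow_zero, pow_zero, X.pull_one, one_smul]
    | succ n ih =>
      rw [pow_succ g, X.pull_mul, ih, X.pull_smul, hE.eig g hg, smul_smul, pow_succ]
  have h1 : χ g i ^ a * X.deg A (θ i) = χ g i ^ b * X.deg A (θ i) := by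
    rw [← X.deg_smul, ← X.deg_smul, ← hpull, ← hpull, hgab]
  have h2 := mul_right_cancel₀ (hE.pos i A hA).ne' h1
  have h3 := pow_lt_pow_right₀ hc hab
  linarith

end Pool.Agent.Y288.KS
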